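import Pool.Agent.N984.QX.Stm2
import Pool.Agent.N986.QX.RED

/-!
# Project QX (helper984): assembly of the upper bounds (leaves ATT, UP0, UPC)
-/

set_option autoImplicit false

namespace Pool.Agent.N288.QX

open Pool.Agent.N984.QX Pool.Agent.N986.QX

theorem t_ATT : S_ATT := by
  classical
  intro n k
  obtain ⟨ψ, hψ, hQ⟩ := attained n k
  refine ⟨ψ, hψ, ?_⟩
  rw [hQ]
  have h1 : {X : Finset (Fin n) | X.card = k ∧ ¬ MaxMixed ψ X} =
      (((Finset.powersetCard k Finset.univ).filter (fun X => ¬ MaxMixed ψ X) :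
        Finset (Finset (Fin n))) : Set (Finset (Fin n))) := by
    ext X
    simp [Finset.mem_powersetCard]
  rw [h1, Set.ncard_coe_finset]
  have h2 := Finset.card_filter_add_card_filter_not
    (s := Finset.powersetCard k (Finset.univ : Finset (Fin n))) (p := MaxMixed ψ)
  rw [Finset.card_powersetCard, Finset.card_univ, Fintype.card_fin] at h2
  unfold numMixed
  convert h2

theorem disj_map {n : ℕ} (D S : Finset (Fin n)) (h : Disjoint D S) (p : Equiv.Perm (Fin n)) :
    Disjoint (D.map p.toEmbedding) (S.map p.toEmbedding) :=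
  (Finset.disjoint_map p.toEmbedding).2 h

theorem exists_sets (n a b : ℕ) (h : a + b ≤ n) :
    ∃ D S : Finset (Fin n), Disjoint D S ∧ D.card = a ∧ S.card = b := by
  classical
  obtain ⟨D, hD, hDc⟩ := Finset.exists_subset_card_eq (s := (Finset.univ : Finset (Fin n)))
    (n := a) (by rw [Finset.card_univ, Fintype.card_fin]; omega)
  obtain ⟨S, hS, hSc⟩ := Finset.exists_subset_card_eq (s := Dᶜ)
    (n := b) (by rw [Finset.card_compl, Fintype.card_fin, hDc]; omega)
  refine ⟨D, S, ?_, hDc, hSc⟩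
  rw [Finset.disjoint_left]
  intro x hx hx2
  exact Finset.mem_compl.1 (hS hx2) hx

theorem t_UP0 (hA : S_AV) (h : S_CORE0) (ha : S_ATT) : S_UP0 := by
  classical
  intro k hk
  obtain ⟨ψ, hψ, hQ⟩ := ha (2 * k) k
  obtain ⟨D, S, hdis, hD, hS⟩ := exists_sets (2 * k) (k - 6) 8 (by omega)
  have h1 := hA (2 * k) k 3 {B // B ∈ Finset.powersetCard 6 S} (fun t => D ∪ t.1)
    (fun X => ¬ MaxMixed ψ X) (by
      intro t
      have h2 := Finset.mem_powersetCard.1 t.2
      rw [Finset.card_union_of_disjoint (Finset.disjoint_of_subset_right h2.1 hdis), hD, h2.2]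
      omega) (by
      intro p
      have h3 := h (2 * k) (D.map p.toEmbedding) (S.map p.toEmbedding) ψ hψ (disj_map D S hdis p)
        (by rw [Finset.card_map, hS]) (by rw [Finset.card_map, hD]; omega)
      refine h3.trans ?_
      have h4 : {B : Finset (Fin (2 * k)) | B ⊆ S.map p.toEmbedding ∧ B.card = 6 ∧
          ¬ MaxMixed ψ (D.map p.toEmbedding ∪ B)} ⊆
          (fun t : {B // B ∈ Finset.powersetCard 6 S} => t.1.map p.toEmbedding) ''
            {t | ¬ MaxMixed ψ ((D ∪ t.1).map p.toEmbedding)} := by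
        rintro B ⟨hB1, hB2, hB3⟩
        obtain ⟨u, hu, rfl⟩ := Finset.subset_map_iff.1 hB1
        refine ⟨⟨u, Finset.mem_powersetCard.2 ⟨hu, ?_⟩⟩, ?_, rfl⟩
        · rw [Finset.card_map] at hB2; exact hB2
        · show ¬ MaxMixed ψ ((D ∪ u).map p.toEmbedding)
          rw [Finset.map_union]
          exact hB3
      exact (Set.ncard_le_ncard h4 (Set.toFinite _)).trans (Set.ncard_image_le (Set.toFinite _)))
  have h5 : Fintype.card {B // B ∈ Finset.powersetCard 6 S} = 28 := by
    rw [Fintype.card_coe, Finset.card_powersetCard, hS]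
    rfl
  rw [h5] at h1
  omega

theorem num_false (c : ℕ) (hc : 1 ≤ c)
    (h : ((6 * c + c + 1 : ℕ) : ℝ) * (2 ^ c - 1) ≤ c * (2 ^ (c + 2) - 1)) : False := by
  have h1 : (2 : ℝ) ≤ 2 ^ c := by
    calc (2 : ℝ) = 2 ^ 1 := by norm_num
      _ ≤ 2 ^ c := pow_le_pow_right₀ (by norm_num) hc
  have h2 : (1 : ℝ) ≤ c := by exact_mod_cast hc
  push_cast at h
  rw [pow_add] at h
  nlinarith

theorem t_UPC (hA : S_AV) (h : S_CORE) (hs : S_SUBM) (ha : S_ATT) : S_UPC := by
  classical
  intro c k hc hk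
  obtain ⟨ψ, hψ, hQ⟩ := ha (2 * k + c) k
  obtain ⟨D, S, hdis, hD, hS⟩ := exists_sets (2 * k + c) (k - 6 * c) (7 * c + 1) (by omega)
  obtain ⟨G, hG⟩ : ∃ G, G = (D ∪ S)ᶜ := ⟨_, rfl⟩
  have hGc : G.card + 1 = k := by
    rw [hG, Finset.card_compl, Fintype.card_fin, Finset.card_union_of_disjoint hdis, hD, hS]
    omega
  have hGS : ∀ i ∈ S, i ∉ G := by
    intro i hi hi2
    rw [hG, Finset.mem_compl, Finset.mem_union] at hi2
    exact hi2 (Or.inr hi)
  have h1 := hA (2 * k + c) k 1 ({B // B ∈ Finset.powersetCard (6 * c) S} ⊕ {i // i ∈ S})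
    (Sum.elim (fun t => D ∪ t.1) (fun i => insert i.1 G))
    (fun X => ¬ MaxMixed ψ X) (by
      rintro (t | i)
      · have h2 := Finset.mem_powersetCard.1 t.2
        show (D ∪ t.1).card = k
        rw [Finset.card_union_of_disjoint (Finset.disjoint_of_subset_right h2.1 hdis), hD, h2.2]
        omega
      · show (insert i.1 G).card = k
        rw [Finset.card_insert_of_notMem (hGS i.1 i.2)]
        exact hGc) (by
      intro p
      rw [Nat.one_le_iff_ne_zero]
      intro h0
      rw [Set.ncard_eq_zero (Set.toFinite _), Set.eq_empty_iff_forall_notMem] at h0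
      have h0' : ∀ t, MaxMixed ψ ((Sum.elim (fun t : {B // B ∈ Finset.powersetCard (6 * c) S} =>
          D ∪ t.1) (fun i : {i // i ∈ S} => insert i.1 G) t).map p.toEmbedding) :=
        fun t => not_not.1 (h0 t)
      have hG' : (D.map p.toEmbedding ∪ S.map p.toEmbedding)ᶜ = G.map p.toEmbedding := by
        rw [hG]
        ext j
        simp only [Finset.mem_compl, Finset.mem_union, Finset.mem_map_equiv]
      have h3 : ∀ i ∈ S.map p.toEmbedding, MaxMixed ψ (insert i (G.map p.toEmbedding)) := by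
        intro j hj
        rw [Finset.mem_map] at hj
        obtain ⟨i, hi, rfl⟩ := hj
        have h4 := h0' (Sum.inr ⟨i, hi⟩)
        rw [Sum.elim_inr, Finset.map_insert] at h4
        exact h4
      have h5 : (S.map p.toEmbedding).Nonempty := by
        rw [← Finset.card_pos, Finset.card_map, hS]
        omega
      obtain ⟨i0, hi0⟩ := h5
      refine num_false c hc (h (2 * k + c) (6 * c) c (D.map p.toEmbedding) (S.map p.toEmbedding) ψ
        hψ (disj_map D S hdis p) (by rw [Finset.card_map, hS]; omega)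
        (by rw [Finset.card_map, hD]; omega) ?_ ?_ ?_)
      · intro B hB1 hB2
        obtain ⟨u, hu, rfl⟩ := Finset.subset_map_iff.1 hB1
        rw [Finset.card_map] at hB2
        have h4 := h0' (Sum.inl ⟨u, Finset.mem_powersetCard.2 ⟨hu, hB2⟩⟩)
        rw [Sum.elim_inl, Finset.map_union] at h4
        exact h4
      · rw [hG']
        exact h3
      · rw [hG']
        exact hs _ ψ _ _ (Finset.subset_insert i0 _) (h3 i0 hi0))
  have h5 : Fintype.card ({B // B ∈ Finset.powersetCard (6 * c) S} ⊕ {i // i ∈ S}) =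
      (7 * c + 1).choose (c + 1) + (7 * c + 1) := by
    have e : ∀ inst : Fintype ({B // B ∈ Finset.powersetCard (6 * c) S} ⊕ {i // i ∈ S}),
        @Fintype.card _ inst = (7 * c + 1).choose (c + 1) + (7 * c + 1) := by
      intro inst
      rw [← Nat.card_eq_fintype_card, Nat.card_sum, Nat.card_eq_finsetCard,
        Nat.card_eq_finsetCard, Finset.card_powersetCard, hS,
        ← Nat.choose_symm_of_eq_add (show 7 * c + 1 = (c + 1) + 6 * c by ring)]
    exact e _
  rw [h5, one_mul] at h1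
  obtain ⟨K, hK⟩ : ∃ K, K = (7 * c + 1).choose (c + 1) + (7 * c + 1) := ⟨_, rfl⟩
  rw [← hK] at h1 ⊢
  have hK0 : (0 : ℝ) < K := by
    have : 0 < K := by rw [hK]; omega
    exact_mod_cast this
  have hQ' : (Qex (2 * k + c) k : ℝ) +
      (Set.ncard {X : Finset (Fin (2 * k + c)) | X.card = k ∧ ¬ MaxMixed ψ X} : ℕ) =
        ((2 * k + c).choose k : ℕ) := by exact_mod_cast hQ
  have h1' : (((2 * k + c).choose k : ℕ) : ℝ) ≤
      K * (Set.ncard {X : Finset (Fin (2 * k + c)) | X.card = k ∧ ¬ MaxMixed ψ X} : ℕ) := by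
    exact_mod_cast h1
  have h6 : (((2 * k + c).choose k : ℕ) : ℝ) / K ≤
      (Set.ncard {X : Finset (Fin (2 * k + c)) | X.card = k ∧ ¬ MaxMixed ψ X} : ℕ) := by
    rw [div_le_iff₀' hK0]
    exact h1'
  have h7 : (1 - 1 / (K : ℝ)) * ((2 * k + c).choose k : ℕ) =
      ((2 * k + c).choose k : ℕ) - (((2 * k + c).choose k : ℕ) : ℝ) / K := by
    ring
  rw [h7]
  linarith

end Pool.Agent.N288.QX
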